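import Mathlib
import Pool.Agent.H25.GC.Dim

/-! Almost all dilations, with neighbourhoods of the radii, from the bound for the dimension. -/

set_option autoImplicit false

open MeasureTheory Filter Topology Set
open scoped ENNReal NNReal
open Pool.Agent.H25.GC (P Good dim_bad)

namespace Pool.Agent.H25.GL

/-- sets of dimension less than one are null sets -/
lemma null_of_dimH {S : Set ℝ} (h : dimH S < 1) : volume S = 0 := by
  refine measure_zero_of_dimH_lt (μ := (volume : Measure ℝ)) (d := 1) ?_ (by simpa using h)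
  have : (μH[((1 : ℝ≥0) : ℝ)] : Measure ℝ) = volume := by
    rw [NNReal.coe_one]
    exact hausdorffMeasure_real
  rw [this]

lemma top_of_sum {τ : ℝ} (hτ : 0 ≤ τ) (u : ℕ → ℝ) (hu : ∀ k, 0 < u k)
    (hsum : ∀ t : ℝ, τ < t → Summable (fun k => (u k) ^ (-t))) : Tendsto u atTop atTop := by
  have h1 := (hsum (τ + 1) (by linarith)).tendsto_atTop_zero
  rw [tendsto_atTop]
  intro b
  have hb : 0 < (max b 1) ^ (-(τ + 1)) := by positivity
  filter_upwards [h1.eventually (gt_mem_nhds hb)] with k hk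
  by_contra hcon
  push Not at hcon
  have h2 : (max b 1) ^ (-(τ + 1)) ≤ (u k) ^ (-(τ + 1)) :=
    Real.rpow_le_rpow_of_nonpos (hu k) (hcon.le.trans (le_max_left _ _)) (by linarith)
  linarith

/-- almost all dilations, with neighbourhoods -/
theorem ae_near {τ β : ℝ} (hτ : 0 ≤ τ) (hτ1 : τ ≤ 1) (hβ0 : 0 ≤ β) (hβ : β ≤ 2 / 5 * τ) (hτβ : τ - β < 1)
    (u : ℕ → ℝ) (hu : ∀ k, 0 < u k) (hsum : ∀ t : ℝ, τ < t → Summable (fun k => (u k) ^ (-t))) :
    ∀ᵐ α : ℝ, 0 < α → ∀ ε : ℝ, 0 < ε → ∀ᶠ k in atTop, Good (1 / 2 + (τ - β) / 6 + ε) β (α * u k) := by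
  have hutop := top_of_sum hτ u hu hsum
  set e : ℕ → ℝ := fun j => min (1 / (60 * ((j : ℝ) + 1))) ((1 - (τ - β)) / 6) with he
  have he0 : ∀ j, 0 < e j := fun j => lt_min (by positivity) (by linarith)
  have he1 : ∀ j, e j ≤ 1 / 60 := fun j => by
    refine (min_le_left _ _).trans ?_
    have hj : (0 : ℝ) ≤ j := Nat.cast_nonneg j
    apply one_div_le_one_div_of_le (by norm_num)
    linarith
  have he2 : ∀ j, e j ≤ (1 - (τ - β)) / 6 := fun j => min_le_right _ _
  have key : ∀ᵐ α : ℝ, ∀ j : ℕ, ¬ (0 < α ∧ ∃ᶠ k in atTop,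
      ¬ Good (1 / 2 + ((τ - β) / 6 + e j)) β (α * u k)) := by
    rw [ae_all_iff]
    intro j
    have h0 := he0 j
    have h1 := he1 j
    have h2 := he2 j
    rw [ae_iff]
    simp only [not_not]
    apply null_of_dimH
    refine (dim_bad (η := (τ - β) / 6 + e j) hτ (by linarith) (by linarith) hβ0 (by linarith) (by linarith)
        u hu hsum).trans_lt ?_
    rw [← ENNReal.ofReal_one, ENNReal.ofReal_lt_ofReal_iff one_pos, div_lt_one (by linarith)]
    linarith
  filter_upwards [key] with α hα hα0 ε hε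
  obtain ⟨j, hj⟩ := exists_nat_one_div_lt hε
  have hej : e j ≤ ε := by
    refine (min_le_left _ _).trans (le_trans ?_ hj.le)
    have hj : (0 : ℝ) ≤ j := Nat.cast_nonneg j
    apply one_div_le_one_div_of_le (by positivity)
    linarith
  have h1 := hα j
  have h2 : ∀ᶠ k in atTop, Good (1 / 2 + ((τ - β) / 6 + e j)) β (α * u k) := by
    by_contra hcon
    exact h1 ⟨hα0, Filter.not_eventually.mp hcon⟩
  have h3 : Tendsto (fun k => α * u k) atTop atTop := hutop.const_mul_atTop hα0
  filter_upwards [h2, h3.eventually_ge_atTop 2] with k hk1 hk2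
  exact hk1.mono hk2 hβ0 (by linarith) le_rfl

end Pool.Agent.H25.GL
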