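import Mathlib
import Pool.Graph.R_seed8.R331.MT.Three

/-!
A lower bound for the Hausdorff dimension of the set of the dilations `α` for which infinitely many `α u_k` are
close to a given unbounded set, by the one-dimensional mass transference principle (`R331.MT.content`).
-/

set_option autoImplicit false

open MeasureTheory Filter Topology Set
open scoped ENNReal NNReal

namespace Pool.Agent.H25.GL

/-- a lower bound for all coverings is a lower bound for the dimension -/
theorem dimH_ge_of_content {S : Set ℝ} {s : ℝ} (hs : 0 < s) {κ : ℝ≥0∞} (hκ : κ ≠ 0)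
    (h : ∀ A : ℕ → Set ℝ, S ⊆ ⋃ j, A j → κ ≤ ∑' j, Metric.ediam (A j) ^ s) :
    ENNReal.ofReal s ≤ dimH S := by
  have h1 : κ ≤ μH[s] S := by
    rw [Measure.hausdorffMeasure_apply]
    refine le_iSup₂_of_le (1 : ℝ≥0∞) one_pos ?_
    refine le_iInf fun t => le_iInf fun ht => le_iInf fun _ => ?_
    refine (h t ht).trans (ENNReal.tsum_le_tsum fun n => ?_)
    by_cases hn : (t n).Nonempty
    · exact le_iSup_of_le hn le_rfl
    · rw [Set.not_nonempty_iff_eq_empty] at hn
      rw [hn, Metric.ediam_empty, ENNReal.zero_rpow_of_pos hs]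
      exact bot_le
  have h2 : μH[((s.toNNReal : ℝ≥0) : ℝ)] S ≠ 0 := by
    rw [Real.coe_toNNReal s hs.le]
    intro h0
    rw [h0] at h1
    exact hκ (le_antisymm h1 bot_le)
  exact le_dimH_of_hausdorffMeasure_ne_zero h2

/-- a slowly growing sequence meets every short interval -/
theorem hit {τ C : ℝ} (hτ1 : τ ≤ 1) (u : ℕ → ℝ) (hu : Tendsto u atTop atTop)
    (hgap : ∀ᶠ k in atTop, u (k + 1) ≤ u k + C * (u k) ^ (1 - τ)) :
    ∃ x₀ : ℝ, 1 ≤ x₀ ∧ ∀ x : ℝ, x₀ ≤ x → ∃ k, x < u k ∧ u k ≤ x + max C 0 * x ^ (1 - τ) := by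
  obtain ⟨N, hN⟩ := eventually_atTop.mp (hgap.and (hu.eventually_ge_atTop 1))
  refine ⟨max 1 (u N), le_max_left _ _, ?_⟩
  intro x hx
  have hx1 : 1 ≤ x := (le_max_left _ _).trans hx
  have hxN : u N ≤ x := (le_max_right _ _).trans hx
  have hex : ∃ k, N ≤ k ∧ x < u k := by
    obtain ⟨k, hk1, hk2⟩ := ((hu.eventually_gt_atTop x).and (eventually_ge_atTop N)).exists
    exact ⟨k, hk2, hk1⟩
  classical
  obtain ⟨hk1, hk2⟩ := Nat.find_spec hex
  set k := Nat.find hex with hk
  have hkN : k ≠ N := by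
    intro h
    rw [h] at hk2
    linarith
  obtain ⟨j, hj⟩ : ∃ j, k = j + 1 := ⟨k - 1, by omega⟩
  have hjN : N ≤ j := by omega
  have hjx : u j ≤ x := by
    by_contra hcon
    push Not at hcon
    exact Nat.find_min hex (show j < Nat.find hex by omega) ⟨hjN, hcon⟩
  refine ⟨k, hk2, ?_⟩
  have h1 := (hN j hjN).1
  have h2 := (hN j hjN).2
  rw [hj]
  have h3 : (u j) ^ (1 - τ) ≤ x ^ (1 - τ) := Real.rpow_le_rpow (by linarith) hjx (by linarith)
  have h4 : C * (u j) ^ (1 - τ) ≤ max C 0 * x ^ (1 - τ) := by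
    calc C * (u j) ^ (1 - τ) ≤ max C 0 * (u j) ^ (1 - τ) :=
          mul_le_mul_of_nonneg_right (le_max_left _ _) (Real.rpow_nonneg (by linarith) _)
      _ ≤ _ := mul_le_mul_of_nonneg_left h3 (le_max_right _ _)
  linarith

/-- **The lower bound.** -/
theorem dim_lower {τ γ c C p q : ℝ} (hτ : 0 < τ) (hτ1 : τ ≤ 1) (hγ1 : 0 < 1 + γ) (hτγ : τ ≤ 1 + γ) (hc : 0 < c)
    (hp : 0 < p)
    (hpq : p < q) (u : ℕ → ℝ) (hu : Tendsto u atTop atTop)
    (hgap : ∀ᶠ k in atTop, u (k + 1) ≤ u k + C * (u k) ^ (1 - τ)) (E : Set ℝ) (hE : ∃ᶠ m in atTop, m ∈ E) :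
    ENNReal.ofReal (τ / (1 + γ)) ≤
      dimH {α : ℝ | p < α ∧ α < q ∧ ∃ᶠ k in atTop, ∃ m ∈ E, 0 < u k ∧ |α * u k - m| ≤ c * m ^ (-γ)} := by
  set T : Set ℝ := {α : ℝ | p < α ∧ α < q ∧ ∃ᶠ k in atTop, ∃ m ∈ E, 0 < u k ∧ |α * u k - m| ≤ c * m ^ (-γ)} with hT
  have hE' : ∀ j : ℕ, ∃ m : ℝ, (j : ℝ) + 1 ≤ m ∧ m ∈ E := by
    intro j
    obtain ⟨m, hm1, hm2⟩ := (frequently_atTop.mp hE) ((j : ℝ) + 1)
    exact ⟨m, hm1, hm2⟩
  choose m hm1 hmE using hE'
  have hm0 : ∀ j, 0 < m j := fun j => by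
    have h1 := hm1 j
    have h2 : (0 : ℝ) ≤ j := Nat.cast_nonneg j
    linarith
  have hmtop : Tendsto m atTop atTop :=
    tendsto_atTop_mono (f := fun j : ℕ => (j : ℝ)) (fun j => by have := hm1 j; linarith)
      tendsto_natCast_atTop_atTop
  obtain ⟨x₀, hx₀, hhit⟩ := hit hτ1 u hu hgap
  set C' : ℝ := max C 0 with hC'
  have hC'0 : 0 ≤ C' := le_max_right _ _
  set a : ℝ := (2 * p + q) / 3 with ha
  set b : ℝ := (p + 2 * q) / 3 with hb
  have hpa : p < a := by rw [ha]; linarith
  have hab : a < b := by rw [ha, hb]; linarith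
  have hbq : b < q := by rw [hb]; linarith
  have ha0 : 0 < a := hp.trans hpa
  have hba : 0 < b - a := by linarith
  set C3 : ℝ := C' * q ^ (1 + τ) + 1 with hC3
  have hq0 : 0 < q := hp.trans hpq
  have hC30 : 0 < C3 := by positivity
  set Cs : ℕ → Set ℝ := fun j => {y | ∃ k, 0 < u k ∧ y = (m j / u k - a) / (b - a)} with hCs
  set ρ : ℕ → ℝ := fun j => C3 / (b - a) * (m j) ^ (-τ) with hρdef
  have hρ : ∀ j, 0 < ρ j := fun j => by
    have := hm0 j
    simp only [hρdef]
    positivity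
  have hρ0 : Tendsto ρ atTop (𝓝 0) := by
    have h1 : Tendsto (fun j => (m j) ^ (-τ)) atTop (𝓝 0) := (tendsto_rpow_neg_atTop hτ).comp hmtop
    have h2 := h1.const_mul (C3 / (b - a))
    rwa [mul_zero] at h2
  have hfull : ∀ᵐ x ∂(volume : Measure ℝ), x ∈ Ioo 0 1 → ∃ᶠ j in atTop, ∃ c ∈ Cs j, |x - c| < ρ j := by
    refine ae_of_all _ ?_
    rintro y ⟨hy0, hy1⟩
    apply Eventually.frequently
    filter_upwards [hmtop.eventually_ge_atTop (q * x₀)] with j hj
    set α : ℝ := a + (b - a) * y with hα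
    have hα1 : a < α := by rw [hα]; nlinarith
    have hα2 : α < b := by rw [hα]; nlinarith
    have hα0 : 0 < α := ha0.trans hα1
    have hαq : α < q := hα2.trans hbq
    have hmj := hm0 j
    have hx : x₀ ≤ m j / α := by
      rw [le_div_iff₀ hα0]
      nlinarith
    have hx0 : 0 < m j / α := by positivity
    obtain ⟨k, hk1, hk2⟩ := hhit (m j / α) hx
    have huk : 0 < u k := hx0.trans hk1
    refine ⟨(m j / u k - a) / (b - a), ⟨k, huk, rfl⟩, ?_⟩
    have e : y - (m j / u k - a) / (b - a) = (α - m j / u k) / (b - a) := by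
      rw [hα]; field_simp; ring
    have e2 : ρ j = (C3 * (m j) ^ (-τ)) / (b - a) := by simp only [hρdef]; ring
    rw [e, e2, abs_div, abs_of_pos hba]
    apply div_lt_div_of_pos_right _ hba
    have h3 : α - m j / u k = (α / u k) * (u k - m j / α) := by field_simp
    have h4 : 0 < u k - m j / α := by linarith
    rw [h3, abs_of_pos (by positivity)]
    have h5 : α / u k ≤ α / (m j / α) := div_le_div_of_nonneg_left hα0.le hx0 hk1.le
    have h6 : u k - m j / α ≤ C' * (m j / α) ^ (1 - τ) := by linarith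
    calc α / u k * (u k - m j / α) ≤ α / (m j / α) * (C' * (m j / α) ^ (1 - τ)) :=
          mul_le_mul h5 h6 h4.le (by positivity)
      _ = C' * (α * (m j / α) ^ (-τ)) := by
          have e3 : (m j / α) ^ (1 - τ) = (m j / α) * (m j / α) ^ (-τ) := by
            rw [show (1 : ℝ) - τ = 1 + -τ by ring, Real.rpow_add hx0, Real.rpow_one]
          rw [e3]; field_simp
      _ = C' * (α ^ (1 + τ) * (m j) ^ (-τ)) := by
          rw [Real.div_rpow hmj.le hα0.le, Real.rpow_add hα0, Real.rpow_one, Real.rpow_neg hα0.le, div_inv_eq_mul]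
          ring
      _ ≤ C' * (q ^ (1 + τ) * (m j) ^ (-τ)) := by
          apply mul_le_mul_of_nonneg_left _ hC'0
          apply mul_le_mul_of_nonneg_right _ (by positivity)
          exact Real.rpow_le_rpow hα0.le hαq.le (by linarith)
      _ < C3 * (m j) ^ (-τ) := by
          have : 0 < (m j) ^ (-τ) := by positivity
          rw [hC3]; nlinarith
  have key : ∀ s : ℝ, 0 < s → s < τ / (1 + γ) → ENNReal.ofReal s ≤ dimH T := by
    intro s hs hs1
    obtain ⟨t, ht1, ht2⟩ := exists_between hs1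
    have ht0 : 0 < t := hs.trans ht1
    have ht3 : t ≤ 1 := by
      have : τ / (1 + γ) ≤ 1 := by
        rw [div_le_one hγ1]
        linarith
      linarith
    set S : Set ℝ := {x | x ∈ Icc (0 : ℝ) 1 ∧ ∃ᶠ k in atTop, ∃ c ∈ Cs k, |x - c| < ρ k ^ (1 / t)} with hS
    have h1 : ENNReal.ofReal s ≤ dimH S :=
      dimH_ge_of_content hs (κ := ENNReal.ofReal (1 / 20)) (by norm_num)
        (fun A hA => Pool.Agent.R331.MT.content hs ht1 ht3 Cs ρ hρ hρ0 hfull A hA)
    have hexp : 0 < τ / t - 1 - γ := by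
      rw [lt_div_iff₀ hγ1] at ht2
      have : 1 + γ < τ / t := by
        rw [lt_div_iff₀ ht0]; linarith
      linarith
    set K' : ℝ := 2 / a * (b - a) * (C3 / (b - a)) ^ (1 / t) with hK'
    have hK'0 : 0 < K' := by positivity
    have hlim : Tendsto (fun j => K' * (m j) ^ (-(τ / t - 1 - γ))) atTop (𝓝 0) := by
      have h2 : Tendsto (fun j => (m j) ^ (-(τ / t - 1 - γ))) atTop (𝓝 0) :=
        (tendsto_rpow_neg_atTop hexp).comp hmtop
      have h3 := h2.const_mul K'
      rwa [mul_zero] at h3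
    have hlim2 : Tendsto (fun j => (b - a) * ρ j ^ (1 / t)) atTop (𝓝 0) := by
      have h2 : Tendsto (fun j => ρ j ^ (1 / t)) atTop (𝓝 0) := by
        have h3 := (Real.continuousAt_rpow_const 0 (1 / t) (Or.inr (by positivity))).tendsto.comp hρ0
        rwa [Real.zero_rpow (by positivity)] at h3
      have h3 := h2.const_mul (b - a)
      rwa [mul_zero] at h3
    have h2 : S ⊆ (fun α => (α - a) / (b - a)) '' T := by
      rintro x ⟨⟨hx0, hx1⟩, hxf⟩
      refine ⟨a + (b - a) * x, ?_, by field_simp; ring⟩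
      set α : ℝ := a + (b - a) * x with hα
      have hα1 : a ≤ α := by rw [hα]; nlinarith
      have hα2 : α ≤ b := by rw [hα]; nlinarith
      refine ⟨by linarith, by linarith, ?_⟩
      rw [frequently_atTop]
      intro K
      obtain ⟨B, hB⟩ := ((Finset.finite_toSet (Finset.range K)).image u).bddAbove
      have hev : ∀ᶠ j in atTop, (b - a) * ρ j ^ (1 / t) ≤ a / 2 ∧ K' * (m j) ^ (-(τ / t - 1 - γ)) ≤ c ∧
          2 * q * B < m j := by
        filter_upwards [hlim2.eventually_le_const (show (0 : ℝ) < a / 2 by positivity),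
          hlim.eventually_le_const hc, hmtop.eventually_gt_atTop (2 * q * B)] with j h1 h2 h3
        exact ⟨h1, h2, h3⟩
      obtain ⟨j, ⟨y, ⟨k, huk, rfl⟩, hy⟩, hj1, hj2, hj3⟩ := (hxf.and_eventually hev).exists
      have hmj := hm0 j
      have e1 : x - (m j / u k - a) / (b - a) = (α - m j / u k) / (b - a) := by
        rw [hα]; field_simp; ring
      rw [e1, abs_div, abs_of_pos hba, div_lt_iff₀ hba] at hy
      have hy2 : |α - m j / u k| < a / 2 := by
        refine lt_of_lt_of_le hy (le_trans (le_of_eq ?_) hj1)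
        ring
      rw [abs_lt] at hy2
      have hu1 : u k < 2 / a * m j := by
        have h3 : a / 2 < m j / u k := by linarith [hy2.2]
        rw [lt_div_iff₀ huk] at h3
        rw [div_mul_eq_mul_div, lt_div_iff₀ ha0]
        linarith
      have hu2 : B < u k := by
        have h3 : m j / u k < 2 * q := by linarith [hy2.1]
        rw [div_lt_iff₀ huk] at h3
        by_contra hcon
        push Not at hcon
        have : 2 * q * u k ≤ 2 * q * B := mul_le_mul_of_nonneg_left hcon (by positivity)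
        linarith
      refine ⟨k, ?_, m j, hmE j, huk, ?_⟩
      · by_contra hcon
        have h3 : u k ≤ B := hB ⟨k, by simpa using hcon, rfl⟩
        linarith
      · have e2 : α * u k - m j = u k * (α - m j / u k) := by field_simp
        rw [e2, abs_mul, abs_of_pos huk]
        have h3 : ρ j ^ (1 / t) = (C3 / (b - a)) ^ (1 / t) * (m j) ^ (-(τ / t)) := by
          simp only [hρdef]
          rw [Real.mul_rpow (by positivity) (by positivity), ← Real.rpow_mul hmj.le]
          congr 2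
          ring
        calc u k * |α - m j / u k| ≤ (2 / a * m j) * (ρ j ^ (1 / t) * (b - a)) :=
              mul_le_mul hu1.le hy.le (abs_nonneg _) (by positivity)
          _ = (K' * (m j) ^ (-(τ / t - 1 - γ))) * (m j) ^ (-γ) := by
              rw [h3, hK', show -(τ / t - 1 - γ) = 1 + -(τ / t) + γ by ring, Real.rpow_add hmj,
                Real.rpow_add hmj, Real.rpow_one]
              have e4 : (m j) ^ γ * (m j) ^ (-γ) = 1 := by
                rw [← Real.rpow_add hmj]; simp
              calc _ = 2 / a * (b - a) * (C3 / (b - a)) ^ (1 / t) * (m j * (m j) ^ (-(τ / t))) * 1 := by ring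
                _ = _ := by rw [← e4]; ring
          _ ≤ c * (m j) ^ (-γ) := mul_le_mul_of_nonneg_right hj2 (by positivity)
    have hlip : LipschitzWith (Real.toNNReal (1 / (b - a))) (fun α : ℝ => (α - a) / (b - a)) := by
      apply LipschitzWith.of_dist_le_mul
      intro x y
      rw [Real.dist_eq, Real.dist_eq, Real.coe_toNNReal _ (by positivity)]
      have : (x - a) / (b - a) - (y - a) / (b - a) = 1 / (b - a) * (x - y) := by field_simp; ring
      rw [this, abs_mul, abs_of_pos (by positivity : (0 : ℝ) < 1 / (b - a))]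
    exact h1.trans ((dimH_mono h2).trans (hlip.dimH_image_le T))
  refine le_of_forall_lt_imp_le_of_dense ?_
  intro x hx
  have hd0 : 0 < τ / (1 + γ) := by positivity
  have hxt : x ≠ ⊤ := ne_top_of_lt hx
  have hx1 : x.toReal < τ / (1 + γ) := by
    rwa [ENNReal.lt_ofReal_iff_toReal_lt hxt] at hx
  obtain ⟨s, hs1, hs2⟩ := exists_between hx1
  have hs0 : 0 < s := lt_of_le_of_lt ENNReal.toReal_nonneg hs1
  refine le_trans ?_ (key s hs0 hs2)
  rw [← ENNReal.ofReal_toReal hxt]
  exact ENNReal.ofReal_le_ofReal hs1.le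

end Pool.Agent.H25.GL
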