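import Mathlib
import Pool.Agent.H25.GC.Dim
import Pool.Agent.H25.GL.Low

/-! Lower bounds for the dimension of the set of bad dilations in the circle problem. -/

set_option autoImplicit false

open MeasureTheory Filter Topology Set
open scoped ENNReal NNReal
open Pool.Agent.H25.GC (P Good)

namespace Pool.Agent.H25.GL

/-- the number of lattice points is nondecreasing -/
lemma card_mono {s t : ℝ} (hs : 0 ≤ s) (h : s ≤ t) :
    (Nat.card {p : ℤ × ℤ // (p.1 : ℝ) ^ 2 + (p.2 : ℝ) ^ 2 ≤ s ^ 2} : ℝ) ≤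
      Nat.card {p : ℤ × ℤ // (p.1 : ℝ) ^ 2 + (p.2 : ℝ) ^ 2 ≤ t ^ 2} := by
  have ht : 0 ≤ t := hs.trans h
  have hfin : {p : ℤ × ℤ | (p.1 : ℝ) ^ 2 + (p.2 : ℝ) ^ 2 ≤ t ^ 2}.Finite := by
    refine ((Set.finite_Icc (-⌈t⌉) ⌈t⌉).prod (Set.finite_Icc (-⌈t⌉) ⌈t⌉)).subset ?_
    rintro ⟨x, y⟩ hxy
    have hxy' : (x : ℝ) ^ 2 + (y : ℝ) ^ 2 ≤ t ^ 2 := hxy
    have hx : |(x : ℝ)| ≤ t := abs_le_of_sq_le_sq (by nlinarith [sq_nonneg (y : ℝ)]) ht
    have hy : |(y : ℝ)| ≤ t := abs_le_of_sq_le_sq (by nlinarith [sq_nonneg (x : ℝ)]) ht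
    have hc := Int.le_ceil t
    rw [abs_le] at hx hy
    refine ⟨⟨?_, ?_⟩, ⟨?_, ?_⟩⟩
    · have : (-(⌈t⌉ : ℝ)) ≤ x := by linarith [hx.1]
      exact_mod_cast this
    · have : (x : ℝ) ≤ ⌈t⌉ := by linarith [hx.2]
      exact_mod_cast this
    · have : (-(⌈t⌉ : ℝ)) ≤ y := by linarith [hy.1]
      exact_mod_cast this
    · have : (y : ℝ) ≤ ⌈t⌉ := by linarith [hy.2]
      exact_mod_cast this
  have hsub : {p : ℤ × ℤ | (p.1 : ℝ) ^ 2 + (p.2 : ℝ) ^ 2 ≤ s ^ 2} ⊆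
      {p : ℤ × ℤ | (p.1 : ℝ) ^ 2 + (p.2 : ℝ) ^ 2 ≤ t ^ 2} := by
    intro p hp
    have hp' : (p.1 : ℝ) ^ 2 + (p.2 : ℝ) ^ 2 ≤ s ^ 2 := hp
    show (p.1 : ℝ) ^ 2 + (p.2 : ℝ) ^ 2 ≤ t ^ 2
    exact hp'.trans (pow_le_pow_left₀ hs h 2)
  exact_mod_cast Nat.card_mono hfin hsub

/-- the error term decreases slowly -/
lemma P_ge {s t : ℝ} (hs : 0 ≤ s) (h : s ≤ t) : P s - Real.pi * (t ^ 2 - s ^ 2) ≤ P t := by
  have h1 := card_mono hs h
  unfold P
  linarith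

/-- a large value persists -/
lemma persist {θ θ' : ℝ} (hθ0 : 0 ≤ θ') (hθ : θ' < θ) (hθ1 : θ ≤ 1) :
    ∃ R₀ : ℝ, ∀ R : ℝ, R₀ ≤ R → R ^ θ < |P R| → ∃ m : ℝ, R - 1 ≤ m ∧
      ∀ s : ℝ, |s - m| ≤ 1 / 80 * m ^ (-(1 - θ)) → s ^ θ' < |P s| := by
  have hd : 0 < θ - θ' := by linarith
  obtain ⟨R₁, hR₁⟩ := eventually_atTop.mp ((tendsto_rpow_atTop hd).eventually_gt_atTop (4 : ℝ))
  refine ⟨max 2 R₁, ?_⟩
  intro R hR hbig
  have hR2 : 2 ≤ R := (le_max_left _ _).trans hR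
  have hR4 : 4 < R ^ (θ - θ') := hR₁ R ((le_max_right _ _).trans hR)
  have hR0 : 0 < R := by linarith
  set ℓ : ℝ := R ^ (θ - 1) / 20 with hℓ
  have hℓ0 : 0 < ℓ := by positivity
  have hℓ1 : ℓ ≤ 1 / 20 := by
    rw [hℓ]
    have : R ^ (θ - 1) ≤ 1 := Real.rpow_le_one_of_one_le_of_nonpos (by linarith) (by linarith)
    linarith
  have hRℓ : R * ℓ = R ^ θ / 20 := by
    rw [hℓ, Real.rpow_sub_one hR0.ne']
    field_simp
  have hRθ0 : 0 < R ^ θ := by positivity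
  have hpi := Real.pi_lt_d2
  have hpi0 := Real.pi_pos
  -- the size of `s ^ θ'`
  have hsmall : ∀ s : ℝ, 0 < s → s ≤ 2 * R → s ^ θ' < R ^ θ / 2 := by
    intro s hs hs2
    have h1 : s ^ θ' ≤ (2 * R) ^ θ' := Real.rpow_le_rpow hs.le hs2 hθ0
    have h2 : (2 * R) ^ θ' ≤ 2 * R ^ θ' := by
      rw [Real.mul_rpow (by norm_num) hR0.le]
      apply mul_le_mul_of_nonneg_right _ (by positivity)
      calc (2 : ℝ) ^ θ' ≤ 2 ^ (1 : ℝ) := Real.rpow_le_rpow_of_exponent_le (by norm_num) (by linarith)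
        _ = 2 := Real.rpow_one 2
    have h3 : 4 * R ^ θ' < R ^ θ := by
      have e : R ^ θ = R ^ (θ - θ') * R ^ θ' := by rw [← Real.rpow_add hR0]; congr 1; ring
      rw [e]
      exact mul_lt_mul_of_pos_right hR4 (by positivity)
    linarith
  rcases le_or_gt 0 (P R) with hP | hP
  · -- positive
    rw [abs_of_nonneg hP] at hbig
    refine ⟨R + ℓ / 2, by linarith, ?_⟩
    intro s hs
    have h1 : 1 / 80 * (R + ℓ / 2) ^ (-(1 - θ)) ≤ ℓ / 2 := by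
      have h2 : (R + ℓ / 2) ^ (-(1 - θ)) ≤ R ^ (-(1 - θ)) :=
        Real.rpow_le_rpow_of_nonpos hR0 (by linarith) (by linarith)
      have h3 : R ^ (-(1 - θ)) = 20 * ℓ := by
        rw [hℓ, show -(1 - θ) = θ - 1 by ring]; ring
      rw [h3] at h2
      linarith
    have h2 := abs_le.mp (hs.trans h1)
    have hs1 : R ≤ s := by linarith [h2.1]
    have hs2 : s ≤ R + ℓ := by linarith [h2.2]
    have h3 := P_ge hR0.le hs1
    have h4 : s ^ 2 - R ^ 2 ≤ 3 * (R * ℓ) := by nlinarith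
    have h5 : Real.pi * (s ^ 2 - R ^ 2) ≤ 3.15 * (3 * (R * ℓ)) := by
      have : 0 ≤ s ^ 2 - R ^ 2 := by nlinarith
      calc Real.pi * (s ^ 2 - R ^ 2) ≤ 3.15 * (s ^ 2 - R ^ 2) := mul_le_mul_of_nonneg_right hpi.le this
        _ ≤ _ := mul_le_mul_of_nonneg_left h4 (by norm_num)
    have h6 : R ^ θ / 2 < P s := by
      rw [hRℓ] at h5
      linarith
    have h7 := hsmall s (by linarith) (by linarith)
    exact h7.trans (h6.trans_le (le_abs_self _))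
  · -- negative
    rw [abs_of_neg hP] at hbig
    refine ⟨R - ℓ / 2, by linarith, ?_⟩
    intro s hs
    have h1 : 1 / 80 * (R - ℓ / 2) ^ (-(1 - θ)) ≤ ℓ / 2 := by
      have h2 : (R - ℓ / 2) ^ (-(1 - θ)) ≤ (R / 2) ^ (-(1 - θ)) :=
        Real.rpow_le_rpow_of_nonpos (by linarith) (by linarith) (by linarith)
      have h4 : (R / 2) ^ (-(1 - θ)) ≤ 2 * R ^ (-(1 - θ)) := by
        rw [Real.div_rpow hR0.le (by norm_num), Real.rpow_neg (by norm_num : (0 : ℝ) ≤ 2), div_inv_eq_mul, mul_comm]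
        apply mul_le_mul_of_nonneg_right _ (by positivity)
        calc (2 : ℝ) ^ (1 - θ) ≤ 2 ^ (1 : ℝ) := Real.rpow_le_rpow_of_exponent_le (by norm_num) (by linarith)
          _ = 2 := Real.rpow_one 2
      have h3 : R ^ (-(1 - θ)) = 20 * ℓ := by
        rw [hℓ, show -(1 - θ) = θ - 1 by ring]; ring
      rw [h3] at h4
      linarith
    have h2 := abs_le.mp (hs.trans h1)
    have hs1 : R - ℓ ≤ s := by linarith [h2.1]
    have hs2 : s ≤ R := by linarith [h2.2]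
    have hs0 : 0 < s := by linarith
    have h3 := P_ge hs0.le hs2
    have h4 : R ^ 2 - s ^ 2 ≤ 2 * (R * ℓ) := by nlinarith
    have h5 : Real.pi * (R ^ 2 - s ^ 2) ≤ 3.15 * (2 * (R * ℓ)) := by
      have : 0 ≤ R ^ 2 - s ^ 2 := by nlinarith
      calc Real.pi * (R ^ 2 - s ^ 2) ≤ 3.15 * (R ^ 2 - s ^ 2) := mul_le_mul_of_nonneg_right hpi.le this
        _ ≤ _ := mul_le_mul_of_nonneg_left h4 (by norm_num)
    have h6 : R ^ θ / 2 < -P s := by
      rw [hRℓ] at h5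
      linarith
    have h7 := hsmall s hs0 (by linarith)
    exact h7.trans (h6.trans_le (neg_le_abs _))

/-- lower bound for the dimension of the set of the dilations with infinitely many large values -/
theorem point_lower {τ C θ θ' p q : ℝ} (hτ : 0 < τ) (hτ1 : τ ≤ 1) (hθ0 : 0 ≤ θ') (hθ : θ' < θ) (hθ1 : θ ≤ 1)
    (hp : 0 < p) (hpq : p < q) (u : ℕ → ℝ) (hu : Tendsto u atTop atTop)
    (hgap : ∀ᶠ k in atTop, u (k + 1) ≤ u k + C * (u k) ^ (1 - τ))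
    (hbig : ∃ᶠ R in atTop, R ^ θ < |P R|) :
    ENNReal.ofReal (τ / (2 - θ)) ≤
      dimH {α : ℝ | p < α ∧ α < q ∧ ∃ᶠ k in atTop, (α * u k) ^ θ' < |P (α * u k)|} := by
  obtain ⟨R₀, hR₀⟩ := persist hθ0 hθ hθ1
  have hE : ∃ᶠ m in atTop, m ∈ {m : ℝ | ∀ s : ℝ, |s - m| ≤ 1 / 80 * m ^ (-(1 - θ)) → s ^ θ' < |P s|} := by
    rw [frequently_atTop]
    intro a
    obtain ⟨R, hR, hbR⟩ := (frequently_atTop.mp hbig) (max R₀ (a + 1))
    obtain ⟨m, hm1, hm2⟩ := hR₀ R ((le_max_left _ _).trans hR) hbR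
    exact ⟨m, by linarith [(le_max_right R₀ (a + 1)).trans hR], hm2⟩
  have h1 := dim_lower (γ := 1 - θ) (c := 1 / 80) hτ hτ1 (by linarith) (by linarith) (by norm_num) hp hpq u hu hgap _ hE
  rw [show 1 + (1 - θ) = 2 - θ by ring] at h1
  refine h1.trans (dimH_mono ?_)
  rintro α ⟨h2, h3, h4⟩
  refine ⟨h2, h3, h4.mono ?_⟩
  rintro k ⟨m, hm, -, h5⟩
  exact hm _ h5

/-- lower bound for the dimension of the set of the dilations with infinitely many large values in neighbourhoods -/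
theorem near_lower {τ C θ β p q : ℝ} (hτ : 0 < τ) (hτ1 : τ ≤ 1) (hβ : 0 ≤ β)
    (hp : 0 < p) (hpq : p < q) (u : ℕ → ℝ) (hu : Tendsto u atTop atTop)
    (hgap : ∀ᶠ k in atTop, u (k + 1) ≤ u k + C * (u k) ^ (1 - τ))
    (hbig : ∃ᶠ R in atTop, R ^ θ < |P R|) :
    ENNReal.ofReal (τ / (1 + β)) ≤
      dimH {α : ℝ | p < α ∧ α < q ∧ ∃ᶠ k in atTop, ¬ Good θ β (α * u k)} := by
  have hE : ∃ᶠ m in atTop, m ∈ {m : ℝ | 1 ≤ m ∧ m ^ θ < |P m|} :=
    (hbig.and_eventually (eventually_ge_atTop 1)).mono (fun m hm => ⟨hm.2, hm.1⟩)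
  have h1 := dim_lower (γ := β) (c := 2 ^ (-β)) hτ hτ1 (by linarith) (by linarith) (by positivity) hp hpq u hu hgap _ hE
  refine h1.trans (dimH_mono ?_)
  rintro α ⟨h2, h3, h4⟩
  refine ⟨h2, h3, h4.mono ?_⟩
  rintro k ⟨m, ⟨hm1, hm⟩, huk, h5⟩ hg
  have hm0 : 0 < m := by linarith
  have hα0 : 0 < α := hp.trans h2
  have hx : 0 < α * u k := mul_pos hα0 huk
  have hc : (2 : ℝ) ^ (-β) * m ^ (-β) ≤ 1 := by
    rw [← Real.mul_rpow (by norm_num) hm0.le]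
    exact Real.rpow_le_one_of_one_le_of_nonpos (by linarith) (by linarith)
  have hx2 : α * u k ≤ 2 * m := by
    have := (abs_le.mp (h5.trans hc)).2
    linarith
  have h6 : |m - α * u k| ≤ (α * u k) ^ (-β) := by
    rw [abs_sub_comm]
    refine h5.trans ?_
    rw [← Real.mul_rpow (by norm_num) hm0.le]
    exact Real.rpow_le_rpow_of_nonpos hx hx2 (by linarith)
  exact absurd (hg m h6) (not_le.mpr hm)

/-- the criterion -/
theorem criterion {τ C Θ : ℝ} (hτ : 0 < τ) (hτ1 : τ ≤ 1) (hΘ0 : 0 ≤ Θ) (hΘ1 : Θ < 1)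
    (u : ℕ → ℝ) (hu : Tendsto u atTop atTop)
    (hgap : ∀ᶠ k in atTop, u (k + 1) ≤ u k + C * (u k) ^ (1 - τ)) :
    (∀ ε : ℝ, 0 < ε → ∃ K R₀ : ℝ, ∀ R : ℝ, R₀ ≤ R → |P R| ≤ K * R ^ (Θ + ε)) ↔
      ∀ η : ℝ, 0 < η → ∃ p q : ℝ, 0 < p ∧ p < q ∧
        dimH {α : ℝ | p < α ∧ α < q ∧ ∃ᶠ k in atTop, (α * u k) ^ (Θ + η) < |P (α * u k)|} <
          ENNReal.ofReal (τ / (2 - Θ)) := by
  constructor
  · intro h η hη
    refine ⟨1, 2, one_pos, one_lt_two, ?_⟩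
    have he : {α : ℝ | 1 < α ∧ α < 2 ∧ ∃ᶠ k in atTop, (α * u k) ^ (Θ + η) < |P (α * u k)|} = ∅ := by
      rw [Set.eq_empty_iff_forall_notMem]
      rintro α ⟨h1, -, h3⟩
      obtain ⟨K, R₀, hK⟩ := h (η / 2) (half_pos hη)
      have hlim : Tendsto (fun k => α * u k) atTop atTop := hu.const_mul_atTop (by linarith)
      have hlim2 : Tendsto (fun k => (α * u k) ^ (η / 2)) atTop atTop :=
        (tendsto_rpow_atTop (half_pos hη)).comp hlim
      obtain ⟨k, hk1, hk2, hk3, hk4⟩ := (h3.and_eventually ((hlim.eventually_ge_atTop R₀).and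
        ((hlim.eventually_ge_atTop 1).and (hlim2.eventually_ge_atTop K)))).exists
      have hx : 0 < α * u k := by linarith
      have h5 := hK _ hk2
      have h6 : (α * u k) ^ (Θ + η) = (α * u k) ^ (η / 2) * (α * u k) ^ (Θ + η / 2) := by
        rw [← Real.rpow_add hx]; congr 1; ring
      rw [h6] at hk1
      have h7 : K * (α * u k) ^ (Θ + η / 2) ≤ (α * u k) ^ (η / 2) * (α * u k) ^ (Θ + η / 2) :=
        mul_le_mul_of_nonneg_right hk4 (by positivity)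
      linarith
    rw [he, dimH_empty, ENNReal.ofReal_pos]
    apply div_pos hτ
    linarith
  · intro h
    by_contra hcon
    push Not at hcon
    obtain ⟨ε, hε, hbad⟩ := hcon
    set δ : ℝ := min ε (1 - Θ) with hδ
    have hδ0 : 0 < δ := lt_min hε (by linarith)
    have hδε : δ ≤ ε := min_le_left _ _
    have hδΘ : δ ≤ 1 - Θ := min_le_right _ _
    have hbig : ∃ᶠ R in atTop, R ^ (Θ + δ) < |P R| := by
      rw [frequently_atTop]
      intro a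
      obtain ⟨R, hR1, hR2⟩ := hbad 1 (max a 1)
      refine ⟨R, (le_max_left _ _).trans hR1, lt_of_le_of_lt ?_ hR2⟩
      rw [one_mul]
      exact Real.rpow_le_rpow_of_exponent_le ((le_max_right _ _).trans hR1) (by linarith)
    obtain ⟨p, q, hp, hpq, hlt⟩ := h (δ / 2) (half_pos hδ0)
    have h1 := point_lower (θ := Θ + δ) (θ' := Θ + δ / 2) hτ hτ1 (by linarith) (by linarith) (by linarith)
      hp hpq u hu hgap hbig
    have h2 := h1.trans_lt hlt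
    rw [ENNReal.ofReal_lt_ofReal_iff (div_pos hτ (by linarith))] at h2
    have h3 : τ / (2 - Θ) ≤ τ / (2 - (Θ + δ)) :=
      div_le_div_of_nonneg_left hτ.le (by linarith) (by linarith)
    linarith

end Pool.Agent.H25.GL
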