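import Mathlib
import Pool.Agent.H25.DV.Fin
import Pool.Agent.H25.GL.Low

/-! Bounds for the dimension of the set of bad dilations in the divisor problem. -/

set_option autoImplicit false

open MeasureTheory Filter Topology Set
open scoped ENNReal NNReal
open Pool.Agent.H25.DV (Δ GoodX dim_x)

namespace Pool.Agent.H25.GL.Dv

/-- sets of dimension less than one are null sets -/
lemma null_of_dimH {S : Set ℝ} (h : dimH S < 1) : volume S = 0 := by
  refine measure_zero_of_dimH_lt (μ := (volume : Measure ℝ)) (d := 1) ?_ (by simpa using h)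
  have : (μH[((1 : ℝ≥0) : ℝ)] : Measure ℝ) = volume := by
    rw [NNReal.coe_one]
    exact hausdorffMeasure_real
  rw [this]

lemma GoodX_mono {θ θ' lam y : ℝ} (hy : 3 ≤ y) (hlam : lam ≤ 1 / 2) (h : GoodX θ lam y) (hθ : θ ≤ θ') :
    GoodX θ' lam y := by
  intro x hx
  have h1 := h x hx
  have hy0 : 0 < y := by linarith
  have h2 : y ^ lam ≤ y - 1 := by
    have h3 : y ^ lam ≤ y ^ (1 / 2 : ℝ) := Real.rpow_le_rpow_of_exponent_le (by linarith) hlam
    rw [← Real.sqrt_eq_rpow] at h3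
    refine h3.trans ?_
    rw [Real.sqrt_le_left (by linarith)]
    nlinarith
  have h4 : 1 ≤ x := by
    have := (abs_le.mp (hx.trans h2)).1
    linarith
  exact h1.trans (Real.rpow_le_rpow_of_exponent_le h4 hθ)

/-- almost all dilations, with neighbourhoods -/
theorem ae_near {τ lam : ℝ} (hτ : 0 ≤ τ) (hτ1 : τ ≤ 1 / 2) (hl : lam ≤ 1 / 2) (hl1 : 1 / 2 - 2 / 5 * τ ≤ lam)
    (hτl : lam + τ < 1) (u : ℕ → ℝ) (hu : ∀ k, 0 < u k)
    (hsum : ∀ t : ℝ, τ < t → Summable (fun k => (u k) ^ (-t))) :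
    ∀ᵐ α : ℝ, 0 < α → ∀ ε : ℝ, 0 < ε → ∀ᶠ k in atTop,
      GoodX (1 / 4 + (lam + τ - 1 / 2) / 6 + ε) lam (α * u k) := by
  have hutop := Pool.Agent.H25.DV.top_of_sum hτ u hu hsum
  set e : ℕ → ℝ := fun j => min (1 / (120 * ((j : ℝ) + 1))) ((1 - (lam + τ)) / 6) with he
  have he0 : ∀ j, 0 < e j := fun j => lt_min (by positivity) (by linarith)
  have he1 : ∀ j, e j ≤ 1 / 120 := fun j => by
    refine (min_le_left _ _).trans ?_
    have hj : (0 : ℝ) ≤ j := Nat.cast_nonneg j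
    apply one_div_le_one_div_of_le (by norm_num)
    linarith
  have he2 : ∀ j, e j ≤ (1 - (lam + τ)) / 6 := fun j => min_le_right _ _
  have key : ∀ᵐ α : ℝ, ∀ j : ℕ, ¬ (0 < α ∧ ∃ᶠ k in atTop,
      ¬ GoodX (1 / 4 + ((lam + τ - 1 / 2) / 6 + e j)) lam (α * u k)) := by
    rw [ae_all_iff]
    intro j
    have h0 := he0 j
    have h1 := he1 j
    have h2 := he2 j
    rw [ae_iff]
    simp only [not_not]
    apply null_of_dimH
    have h3 := dim_x (η := (lam + τ - 1 / 2) / 6 + e j) (β := 1 - 2 * lam) hτ (by linarith) (by linarith)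
      (by linarith) (by linarith) (by linarith) u hu hsum
    rw [show (1 - (1 - 2 * lam)) / 2 = lam by ring] at h3
    refine h3.trans_lt ?_
    rw [← ENNReal.ofReal_one, ENNReal.ofReal_lt_ofReal_iff one_pos, div_lt_one (by linarith)]
    linarith
  filter_upwards [key] with α hα hα0 ε hε
  obtain ⟨j, hj⟩ := exists_nat_one_div_lt hε
  have hej : e j ≤ ε := by
    refine (min_le_left _ _).trans (le_trans ?_ hj.le)
    have hj : (0 : ℝ) ≤ j := Nat.cast_nonneg j
    apply one_div_le_one_div_of_le (by positivity)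
    linarith
  have h1 := hα j
  have h2 : ∀ᶠ k in atTop, GoodX (1 / 4 + ((lam + τ - 1 / 2) / 6 + e j)) lam (α * u k) := by
    by_contra hcon
    exact h1 ⟨hα0, Filter.not_eventually.mp hcon⟩
  have h3 : Tendsto (fun k => α * u k) atTop atTop := hutop.const_mul_atTop hα0
  filter_upwards [h2, h3.eventually_ge_atTop 3] with k hk1 hk2
  exact GoodX_mono hk2 hl hk1 (by linarith)

/-- smaller powers are small -/
lemma pow_small {a : ℝ} (ha : a < 1) : ∀ᶠ R : ℝ in atTop, R ^ a ≤ R / 2 := by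
  have h1 := tendsto_rpow_neg_atTop (show 0 < 1 - a by linarith)
  rw [show -(1 - a) = a - 1 by ring] at h1
  filter_upwards [h1.eventually_le_const (show (0 : ℝ) < 1 / 2 by norm_num), eventually_gt_atTop 0] with R h2 h3
  rw [Real.rpow_sub_one h3.ne', div_le_iff₀ h3] at h2
  linarith

/-- the main term -/
lemma main_le {x y : ℝ} (hx : 1 ≤ x) (hxy : x ≤ y) :
    y * Real.log y - x * Real.log x + (2 * Real.eulerMascheroniConstant - 1) * (y - x) ≤
      (y - x) * (Real.log y + 3) := by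
  have hx0 : 0 < x := by linarith
  have hy0 : 0 < y := by linarith
  have h1 : Real.log (y / x) ≤ y / x - 1 := Real.log_le_sub_one_of_pos (by positivity)
  rw [Real.log_div hy0.ne' hx0.ne'] at h1
  have h2 : x * (Real.log y - Real.log x) ≤ y - x := by
    calc x * (Real.log y - Real.log x) ≤ x * (y / x - 1) := mul_le_mul_of_nonneg_left h1 hx0.le
      _ = y - x := by field_simp
  have h3 : Real.eulerMascheroniConstant < 2 / 3 := Real.eulerMascheroniConstant_lt_two_thirds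
  have h4 : (2 * Real.eulerMascheroniConstant - 1) * (y - x) ≤ 1 * (y - x) :=
    mul_le_mul_of_nonneg_right (by linarith) (by linarith)
  nlinarith

/-- the error term decreases slowly -/
lemma Delta_ge {x y : ℝ} (hx : 1 ≤ x) (hxy : x ≤ y) : Δ x - (y - x) * (Real.log y + 3) ≤ Δ y := by
  have h1 := main_le hx hxy
  have h2 : (∑ n ∈ Finset.Icc 1 ⌊x⌋₊, (n.divisors.card : ℝ)) ≤ ∑ n ∈ Finset.Icc 1 ⌊y⌋₊, (n.divisors.card : ℝ) := by
    apply Finset.sum_le_sum_of_subset_of_nonneg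
    · exact Finset.Icc_subset_Icc_right (Nat.floor_le_floor hxy)
    · intro i _ _
      positivity
  unfold Δ
  linarith

/-- a large value persists -/
lemma persist {θ θ' θ'' : ℝ} (hθ0 : 0 ≤ θ') (hθ : θ' < θ'') (hθ2 : θ'' < θ) (hθ1 : θ ≤ 1) :
    ∃ R₀ : ℝ, ∀ R : ℝ, R₀ ≤ R → R ^ θ < |Δ R| → ∃ m : ℝ, R - R ^ θ'' ≤ m ∧
      ∀ s : ℝ, |s - m| ≤ 1 / 4 * m ^ (-(-θ'')) → s ^ θ' < |Δ s| := by
  have hd : 0 < θ - θ' := by linarith
  have hd2 : 0 < θ - θ'' := by linarith
  have ev1 := (tendsto_rpow_atTop hd).eventually_gt_atTop (4 : ℝ)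
  have ev2 : ∀ᶠ R : ℝ in atTop, Real.log (2 * R) + 3 ≤ R ^ (θ - θ'') / 4 := by
    have h1 : (fun R : ℝ => Real.log R) =o[atTop] fun R : ℝ => R ^ (θ - θ'') := isLittleO_log_rpow_atTop hd2
    have h2 := h1.bound (show (0 : ℝ) < 1 / 8 by norm_num)
    have h3 := (tendsto_rpow_atTop hd2).eventually_ge_atTop (8 * (Real.log 2 + 3))
    filter_upwards [h2, h3, eventually_ge_atTop 1] with R h4 h5 h6
    rw [Real.norm_of_nonneg (Real.log_nonneg h6), Real.norm_of_nonneg (by positivity)] at h4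
    rw [Real.log_mul (by norm_num) (by linarith)]
    linarith
  have ev3 : ∀ᶠ R : ℝ in atTop, R ^ (θ'' - 1) ≤ 1 / 4 := by
    have h1 := tendsto_rpow_neg_atTop (show 0 < 1 - θ'' by linarith)
    rw [show -(1 - θ'') = θ'' - 1 by ring] at h1
    exact h1.eventually_le_const (by norm_num)
  obtain ⟨R₁, hR₁⟩ := eventually_atTop.mp (ev1.and (ev2.and (ev3.and (eventually_ge_atTop (8 : ℝ)))))
  refine ⟨R₁, ?_⟩
  intro R hR hbig
  obtain ⟨hR4, hlog, hsm, hR8⟩ := hR₁ R hR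
  have hR0 : 0 < R := by linarith
  set ℓ : ℝ := R ^ θ'' with hℓ
  have hℓ0 : 0 < ℓ := by positivity
  have hℓ1 : ℓ ≤ R / 4 := by
    have e : R ^ (θ'' - 1) = ℓ / R := by rw [hℓ, Real.rpow_sub_one hR0.ne']
    rw [e, div_le_iff₀ hR0] at hsm
    linarith
  have hRℓ : (Real.log (2 * R) + 3) * ℓ ≤ R ^ θ / 4 := by
    calc (Real.log (2 * R) + 3) * ℓ ≤ (R ^ (θ - θ'') / 4) * ℓ := mul_le_mul_of_nonneg_right hlog hℓ0.le
      _ = R ^ θ / 4 := by
          rw [hℓ, div_mul_eq_mul_div, ← Real.rpow_add hR0]; congr 2; ring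
  have hRθ0 : 0 < R ^ θ := by positivity
  -- the size of `s ^ θ'`
  have hsmall : ∀ s : ℝ, 0 < s → s ≤ 2 * R → s ^ θ' < R ^ θ / 2 := by
    intro s hs hs2
    have h1 : s ^ θ' ≤ (2 * R) ^ θ' := Real.rpow_le_rpow hs.le hs2 hθ0
    have h2 : (2 * R) ^ θ' ≤ 2 * R ^ θ' := by
      rw [Real.mul_rpow (by norm_num) hR0.le]
      apply mul_le_mul_of_nonneg_right _ (by positivity)
      calc (2 : ℝ) ^ θ' ≤ 2 ^ (1 : ℝ) := Real.rpow_le_rpow_of_exponent_le (by norm_num) (by linarith)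
        _ = 2 := Real.rpow_one 2
    have h3 : 4 * R ^ θ' < R ^ θ := by
      have e : R ^ θ = R ^ (θ - θ') * R ^ θ' := by rw [← Real.rpow_add hR0]; congr 1; ring
      rw [e]
      exact mul_lt_mul_of_pos_right hR4 (by positivity)
    linarith
  -- the length of the interval
  have hlen : ∀ m : ℝ, 0 < m → m ≤ 2 * R → 1 / 4 * m ^ (-(-θ'')) ≤ ℓ / 2 := by
    intro m hm hm2
    rw [neg_neg]
    have h1 : m ^ θ'' ≤ (2 * R) ^ θ'' := Real.rpow_le_rpow hm.le hm2 (by linarith)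
    have h2 : (2 * R) ^ θ'' ≤ 2 * ℓ := by
      rw [Real.mul_rpow (by norm_num) hR0.le, ← hℓ]
      apply mul_le_mul_of_nonneg_right _ (by positivity)
      calc (2 : ℝ) ^ θ'' ≤ 2 ^ (1 : ℝ) := Real.rpow_le_rpow_of_exponent_le (by norm_num) (by linarith)
        _ = 2 := Real.rpow_one 2
    linarith
  rcases le_or_gt 0 (Δ R) with hP | hP
  · -- positive
    rw [abs_of_nonneg hP] at hbig
    refine ⟨R + ℓ / 2, by linarith, ?_⟩
    intro s hs
    have h2 := abs_le.mp (hs.trans (hlen (R + ℓ / 2) (by linarith) (by linarith)))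
    have hs1 : R ≤ s := by linarith [h2.1]
    have hs2 : s ≤ R + ℓ := by linarith [h2.2]
    have h3 := Delta_ge (by linarith) hs1
    have h5 : (s - R) * (Real.log s + 3) ≤ (Real.log (2 * R) + 3) * ℓ := by
      have h6 : Real.log s ≤ Real.log (2 * R) := Real.log_le_log (by linarith) (by linarith)
      have h7 : 0 ≤ Real.log s := Real.log_nonneg (by linarith)
      calc (s - R) * (Real.log s + 3) ≤ ℓ * (Real.log (2 * R) + 3) :=
            mul_le_mul (by linarith) (by linarith) (by linarith) hℓ0.le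
        _ = _ := mul_comm _ _
    have h6 : R ^ θ / 2 < Δ s := by linarith
    exact (hsmall s (by linarith) (by linarith)).trans (h6.trans_le (le_abs_self _))
  · -- negative
    rw [abs_of_neg hP] at hbig
    refine ⟨R - ℓ / 2, by linarith, ?_⟩
    intro s hs
    have h2 := abs_le.mp (hs.trans (hlen (R - ℓ / 2) (by linarith) (by linarith)))
    have hs1 : R - ℓ ≤ s := by linarith [h2.1]
    have hs2 : s ≤ R := by linarith [h2.2]
    have hs0 : 1 ≤ s := by linarith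
    have h3 := Delta_ge hs0 hs2
    have h5 : (R - s) * (Real.log R + 3) ≤ (Real.log (2 * R) + 3) * ℓ := by
      have h6 : Real.log R ≤ Real.log (2 * R) := Real.log_le_log (by linarith) (by linarith)
      have h7 : 0 ≤ Real.log R := Real.log_nonneg (by linarith)
      calc (R - s) * (Real.log R + 3) ≤ ℓ * (Real.log (2 * R) + 3) :=
            mul_le_mul (by linarith) (by linarith) (by linarith) hℓ0.le
        _ = _ := mul_comm _ _
    have h6 : R ^ θ / 2 < -Δ s := by linarith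
    exact (hsmall s (by linarith) (by linarith)).trans (h6.trans_le (neg_le_abs _))

/-- lower bound for the dimension of the set of the dilations with infinitely many large values -/
theorem point_lower {τ C θ θ' p q : ℝ} (hτ : 0 < τ) (hθ0 : 0 ≤ θ') (hθ : θ' < θ) (hθ1 : θ < 1)
    (hτθ : τ ≤ 1 - θ)
    (hp : 0 < p) (hpq : p < q) (u : ℕ → ℝ) (hu : Tendsto u atTop atTop)
    (hgap : ∀ᶠ k in atTop, u (k + 1) ≤ u k + C * (u k) ^ (1 - τ))
    (hbig : ∃ᶠ R in atTop, R ^ θ < |Δ R|) :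
    ENNReal.ofReal (τ / (1 - θ)) ≤
      dimH {α : ℝ | p < α ∧ α < q ∧ ∃ᶠ k in atTop, (α * u k) ^ θ' < |Δ (α * u k)|} := by
  have key : ∀ θ'' : ℝ, θ' < θ'' → θ'' < θ → ENNReal.ofReal (τ / (1 - θ'')) ≤
      dimH {α : ℝ | p < α ∧ α < q ∧ ∃ᶠ k in atTop, (α * u k) ^ θ' < |Δ (α * u k)|} := by
    intro θ'' h1 h2
    obtain ⟨R₀, hR₀⟩ := persist hθ0 h1 h2 hθ1.le
    have hE : ∃ᶠ m in atTop, m ∈ {m : ℝ | ∀ s : ℝ, |s - m| ≤ 1 / 4 * m ^ (-(-θ'')) → s ^ θ' < |Δ s|} := by
      rw [frequently_atTop]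
      intro a
      have hlim : Tendsto (fun R : ℝ => R - R ^ θ'') atTop atTop := by
        refine tendsto_atTop_mono' atTop ?_ (tendsto_id.atTop_mul_const (show (0 : ℝ) < 1 / 2 by norm_num))
        filter_upwards [pow_small (show θ'' < 1 by linarith)] with R h5
        simp only [id]
        linarith
      obtain ⟨R, hbR, hR1, hR2⟩ := (hbig.and_eventually ((eventually_ge_atTop R₀).and
        (hlim.eventually_ge_atTop a))).exists
      obtain ⟨m, hm1, hm2⟩ := hR₀ R hR1 hbR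
      exact ⟨m, hR2.trans hm1, hm2⟩
    have h1 := dim_lower (γ := -θ'') (c := 1 / 4) hτ (by linarith) (by linarith) (by linarith) (by norm_num)
      hp hpq u hu hgap _ hE
    rw [show 1 + -θ'' = 1 - θ'' by ring] at h1
    refine h1.trans (dimH_mono ?_)
    rintro α ⟨h2, h3, h4⟩
    refine ⟨h2, h3, h4.mono ?_⟩
    rintro k ⟨m, hm, -, h5⟩
    exact hm _ h5
  refine le_of_forall_lt_imp_le_of_dense ?_
  intro x hx
  have hxt : x ≠ ⊤ := ne_top_of_lt hx
  have hx1 : x.toReal < τ / (1 - θ) := by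
    rwa [ENNReal.lt_ofReal_iff_toReal_lt hxt] at hx
  have hx0 : 0 ≤ x.toReal := ENNReal.toReal_nonneg
  obtain ⟨θ'', h1, h2, h3⟩ : ∃ θ'', θ' < θ'' ∧ θ'' < θ ∧ x.toReal ≤ τ / (1 - θ'') := by
    rw [lt_div_iff₀ (by linarith)] at hx1
    have hcont : Tendsto (fun t : ℝ => x.toReal * (1 - t)) (𝓝[<] θ) (𝓝 (x.toReal * (1 - θ))) := by
      apply Tendsto.mono_left _ nhdsWithin_le_nhds
      exact (continuous_const.mul (continuous_const.sub continuous_id)).tendsto θ
    have e1 := hcont.eventually_lt_const hx1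
    have e2 : ∀ᶠ t in 𝓝[<] θ, t ∈ Ioo θ' θ := Ioo_mem_nhdsLT hθ
    obtain ⟨t, ht1, ht2⟩ := (e1.and e2).exists
    refine ⟨t, ht2.1, ht2.2, ?_⟩
    rw [le_div_iff₀ (by linarith [ht2.2])]
    exact ht1.le
  refine le_trans ?_ (key θ'' h1 h2)
  rw [← ENNReal.ofReal_toReal hxt]
  exact ENNReal.ofReal_le_ofReal h3

/-- lower bound for the dimension of the set of the dilations with infinitely many large values in neighbourhoods -/
theorem near_lower {τ C θ lam p q : ℝ} (hτ : 0 < τ) (hlam0 : 0 ≤ lam) (hlam : lam < 1) (hτl : τ ≤ 1 - lam)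
    (hp : 0 < p) (hpq : p < q) (u : ℕ → ℝ) (hu : Tendsto u atTop atTop)
    (hgap : ∀ᶠ k in atTop, u (k + 1) ≤ u k + C * (u k) ^ (1 - τ))
    (hbig : ∃ᶠ R in atTop, R ^ θ < |Δ R|) :
    ENNReal.ofReal (τ / (1 - lam)) ≤
      dimH {α : ℝ | p < α ∧ α < q ∧ ∃ᶠ k in atTop, ¬ GoodX θ lam (α * u k)} := by
  have hlim : ∀ᶠ R : ℝ in atTop, R ^ lam ≤ R / 2 := pow_small hlam
  have hE : ∃ᶠ m in atTop, m ∈ {m : ℝ | m ^ lam ≤ m / 2 ∧ 1 ≤ m ∧ m ^ θ < |Δ m|} :=
    (hbig.and_eventually (hlim.and (eventually_ge_atTop 1))).mono (fun m hm => ⟨hm.2.1, hm.2.2, hm.1⟩)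
  have h1 := dim_lower (γ := -lam) (c := 1 / 2) hτ (by linarith) (by linarith) (by linarith) (by norm_num)
    hp hpq u hu hgap _ hE
  rw [show 1 + -lam = 1 - lam by ring] at h1
  refine h1.trans (dimH_mono ?_)
  rintro α ⟨h2, h3, h4⟩
  refine ⟨h2, h3, h4.mono ?_⟩
  rintro k ⟨m, ⟨hm2, hm1, hm⟩, huk, h5⟩ hg
  rw [neg_neg] at h5
  have hm0 : 0 < m := by linarith
  have hα0 : 0 < α := hp.trans h2
  have hx : 0 < α * u k := mul_pos hα0 huk
  have hx2 : m / 2 ≤ α * u k := by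
    have := (abs_le.mp h5).1
    linarith
  have h6 : |m - α * u k| ≤ (α * u k) ^ lam := by
    rw [abs_sub_comm]
    refine h5.trans ?_
    calc 1 / 2 * m ^ lam ≤ (1 / 2) ^ lam * m ^ lam := by
          apply mul_le_mul_of_nonneg_right _ (by positivity)
          calc (1 / 2 : ℝ) = (1 / 2) ^ (1 : ℝ) := (Real.rpow_one _).symm
            _ ≤ (1 / 2) ^ lam := Real.rpow_le_rpow_of_exponent_ge (by norm_num) (by norm_num) hlam.le
      _ = (m / 2) ^ lam := by
          rw [← Real.mul_rpow (by norm_num) hm0.le]; congr 1; ring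
      _ ≤ _ := Real.rpow_le_rpow (by linarith) hx2 hlam0
  exact absurd (hg m h6) (not_le.mpr hm)

/-- the criterion -/
theorem criterion {τ C Θ : ℝ} (hτ : 0 < τ) (hτΘ : τ < 1 - Θ) (hΘ0 : 0 ≤ Θ)
    (u : ℕ → ℝ) (hu : Tendsto u atTop atTop)
    (hgap : ∀ᶠ k in atTop, u (k + 1) ≤ u k + C * (u k) ^ (1 - τ)) :
    (∀ ε : ℝ, 0 < ε → ∃ K R₀ : ℝ, ∀ R : ℝ, R₀ ≤ R → |Δ R| ≤ K * R ^ (Θ + ε)) ↔
      ∀ η : ℝ, 0 < η → ∃ p q : ℝ, 0 < p ∧ p < q ∧
        dimH {α : ℝ | p < α ∧ α < q ∧ ∃ᶠ k in atTop, (α * u k) ^ (Θ + η) < |Δ (α * u k)|} <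
          ENNReal.ofReal (τ / (1 - Θ)) := by
  constructor
  · intro h η hη
    refine ⟨1, 2, one_pos, one_lt_two, ?_⟩
    have he : {α : ℝ | 1 < α ∧ α < 2 ∧ ∃ᶠ k in atTop, (α * u k) ^ (Θ + η) < |Δ (α * u k)|} = ∅ := by
      rw [Set.eq_empty_iff_forall_notMem]
      rintro α ⟨h1, -, h3⟩
      obtain ⟨K, R₀, hK⟩ := h (η / 2) (half_pos hη)
      have hlim : Tendsto (fun k => α * u k) atTop atTop := hu.const_mul_atTop (by linarith)
      have hlim2 : Tendsto (fun k => (α * u k) ^ (η / 2)) atTop atTop :=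
        (tendsto_rpow_atTop (half_pos hη)).comp hlim
      obtain ⟨k, hk1, hk2, hk3, hk4⟩ := (h3.and_eventually ((hlim.eventually_ge_atTop R₀).and
        ((hlim.eventually_ge_atTop 1).and (hlim2.eventually_ge_atTop K)))).exists
      have hx : 0 < α * u k := by linarith
      have h5 := hK _ hk2
      have h6 : (α * u k) ^ (Θ + η) = (α * u k) ^ (η / 2) * (α * u k) ^ (Θ + η / 2) := by
        rw [← Real.rpow_add hx]; congr 1; ring
      rw [h6] at hk1
      have h7 : K * (α * u k) ^ (Θ + η / 2) ≤ (α * u k) ^ (η / 2) * (α * u k) ^ (Θ + η / 2) :=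
        mul_le_mul_of_nonneg_right hk4 (by positivity)
      linarith
    rw [he, dimH_empty, ENNReal.ofReal_pos]
    apply div_pos hτ
    linarith
  · intro h
    by_contra hcon
    push Not at hcon
    obtain ⟨ε, hε, hbad⟩ := hcon
    set δ : ℝ := min ε (1 - Θ - τ) with hδ
    have hδ0 : 0 < δ := lt_min hε (by linarith)
    have hδε : δ ≤ ε := min_le_left _ _
    have hδΘ : δ ≤ 1 - Θ - τ := min_le_right _ _
    have hbig : ∃ᶠ R in atTop, R ^ (Θ + δ) < |Δ R| := by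
      rw [frequently_atTop]
      intro a
      obtain ⟨R, hR1, hR2⟩ := hbad 1 (max a 1)
      refine ⟨R, (le_max_left _ _).trans hR1, lt_of_le_of_lt ?_ hR2⟩
      rw [one_mul]
      exact Real.rpow_le_rpow_of_exponent_le ((le_max_right _ _).trans hR1) (by linarith)
    obtain ⟨p, q, hp, hpq, hlt⟩ := h (δ / 2) (half_pos hδ0)
    have h1 := point_lower (θ := Θ + δ) (θ' := Θ + δ / 2) hτ (by linarith) (by linarith) (by linarith) (by linarith)
      hp hpq u hu hgap hbig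
    have h2 := h1.trans_lt hlt
    rw [ENNReal.ofReal_lt_ofReal_iff (div_pos hτ (by linarith))] at h2
    have h3 : τ / (1 - Θ) ≤ τ / (1 - (Θ + δ)) :=
      div_le_div_of_nonneg_left hτ.le (by linarith) (by linarith)
    linarith

end Pool.Agent.H25.GL.Dv
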